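import Pool.Agent.Q2N.Stmts

/-!
# Row GEND: generation of `K(y;σ)` as a division ring
-/

set_option autoImplicit false

namespace Pool.Agent.Q2N.H17

open Pool.Agent.UW Pool.Agent.Q2N

theorem conj_ι {K : Type} [Field K] {φ : RingAut K} (f : K) (n : ℤ) :
    ι φ ((φ ^ n) f) = y φ ^ n * ι φ f * (y φ ^ n)⁻¹ := by
  have h1 : y φ ^ n * ι φ f = ι φ ((φ ^ n) f) * y φ ^ n := by
    rw [y_pow, ι_eq, mo_mul, ι_eq, mo_mul, one_mul, zpow_zero, zero_add, add_zero]
    congr 1
    exact (mul_one _).symm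
  rw [h1, mul_inv_cancel_right₀ (zpow_ne_zero _ y_ne_zero)]

theorem RR_sum {K : Type} [Field K] {φ : RingAut K} {P : DD φ} (hP : P ∈ RR φ) :
    ∃ a b : ℤ, P = ∑ i ∈ Finset.Icc a b, mo φ ((ψ φ P).coeff i) i := by
  obtain ⟨a, b, hab⟩ := lau_supp (φ := φ) (z := P.1) hP
  refine ⟨a, b, ?_⟩
  rw [← sub_eq_zero]
  apply ψ_inj
  rw [map_sub, map_sum, sub_eq_zero]
  ext n
  rw [SkewLaurent.coeff_sum]
  have h1 : ∀ i ∈ Finset.Icc a b, (ψ φ (mo φ ((ψ φ P).coeff i) i)).coeff n =
      if n = i then (ψ φ P).coeff i else 0 := fun i _ => rfl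
  rw [Finset.sum_congr rfl h1, Finset.sum_ite_eq]
  split_ifs with h2
  · rfl
  · apply hab n
    rw [Finset.mem_Icc] at h2
    by_contra h3
    push Not at h3
    exact h2 ⟨h3.1, h3.2⟩

/-- GEND -/
theorem gend : GendStmt := by
  intro F K _ _ _ S f hf Q hQ hy hι
  have hyn : ∀ n : ℤ, y S.σ ^ n ∈ Q := by
    have h0 : ∀ n : ℕ, y S.σ ^ n ∈ Q := fun n => pow_mem hy n
    intro n
    obtain ⟨m, rfl | rfl⟩ := n.eq_nat_or_neg
    · rw [zpow_natCast]
      exact h0 m
    · rw [zpow_neg, zpow_natCast]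
      exact hQ _ (h0 m)
  let L : Subfield K :=
    { carrier := {g | ι S.σ g ∈ Q}
      mul_mem' := by
        intro a b ha hb
        show ι S.σ (a * b) ∈ Q
        rw [map_mul]
        exact mul_mem ha hb
      one_mem' := by
        show ι S.σ 1 ∈ Q
        rw [map_one]
        exact one_mem Q
      add_mem' := by
        intro a b ha hb
        show ι S.σ (a + b) ∈ Q
        rw [map_add]
        exact add_mem ha hb
      zero_mem' := by
        show ι S.σ 0 ∈ Q
        rw [map_zero]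
        exact zero_mem Q
      neg_mem' := by
        intro a ha
        show ι S.σ (-a) ∈ Q
        rw [map_neg]
        exact neg_mem ha
      inv_mem' := by
        intro a ha
        show ι S.σ a⁻¹ ∈ Q
        rw [map_inv₀]
        exact hQ _ ha }
  have hL : L = ⊤ := by
    apply hf L
    · intro c
      show ι S.σ (algebraMap F K c) ∈ Q
      rw [← algebraMap_DD]
      exact Q.algebraMap_mem c
    · intro n
      show ι S.σ ((S.σ ^ n) f) ∈ Q
      rw [conj_ι]
      exact mul_mem (mul_mem (hyn n) hι) (hQ _ (hyn n))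
  have hιQ : ∀ g : K, ι S.σ g ∈ Q := by
    intro g
    have h1 : g ∈ L := by
      rw [hL]
      exact Subfield.mem_top g
    exact h1
  have hRR : ∀ P ∈ RR S.σ, P ∈ Q := by
    intro P hP
    obtain ⟨a, b, h⟩ := RR_sum hP
    rw [h]
    refine Subalgebra.sum_mem Q fun i _ => ?_
    rw [mo_eq]
    exact mul_mem (hιQ _) (hyn i)
  rw [eq_top_iff]
  intro d _
  obtain ⟨P, hP, hP0, hPd⟩ := left_den d
  have h1 : d = P⁻¹ * (P * d) := by
    rw [← mul_assoc, inv_mul_cancel₀ hP0, one_mul]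
  rw [h1]
  exact mul_mem (hQ _ (hRR P hP)) (hRR _ hPd)

end Pool.Agent.Q2N.H17
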